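import Pool.Agent.V1175.BB.Defs
import Pool.Agent.V1175.BB.Main

open MeasureTheory Filter Topology
open scoped BoundedContinuousFunction

namespace Pool.Agent.Results.MP_bbfed3_an.Converge

open Pool.Agent.V1175.BB

/-- **Q1, full positive answer** (for all exponents `-d < α < β`; no condition `α ≤ 2 - d` is
needed). Let `X k` be a global minimiser of the discrete energy of `n k` particles, `n k → ∞`.
Then there are translations `a k` such that every subsequence of the recentred empirical measures
`(1/N) ∑ i, δ_{X_i - a}`, `N = n k`, has a further subsequence which converges narrowly, that is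
against all bounded continuous functions, to a global minimiser of the continuum energy. -/
theorem result (d : ℕ) (hd : 1 ≤ d) (α β : ℝ) (hα : -(d : ℝ) < α) (h : α < β)
    (n : ℕ → ℕ) (hn : Tendsto n atTop atTop) (hn2 : ∀ k, 2 ≤ n k)
    (X : ∀ k, Fin (n k) → Esp d) (hX : ∀ k, IsDiscreteMin α β (X k)) :
    ∃ a : ℕ → Esp d, ∀ φ : ℕ → ℕ, StrictMono φ → ∃ ψ : ℕ → ℕ, StrictMono ψ ∧
      ∃ ρ : ProbabilityMeasure (Esp d), IsContMin α β ρ ∧
        ∀ f : Esp d →ᵇ ℝ, Tendsto (fun k => (1 / (n (φ (ψ k)) : ℝ)) *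
          ∑ i, f (X (φ (ψ k)) i - a (φ (ψ k)))) atTop (𝓝 (∫ x, f x ∂(ρ : Measure (Esp d)))) :=
  main d hd α β hα h n hn hn2 X hX

end Pool.Agent.Results.MP_bbfed3_an.Converge
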